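import Mathlib
import Pool.Agent.Y294.FO.Stm

/-!
# Ellipsoids are regions of class `C^{1,1}` (job FO-ELL for helper294)
-/

set_option autoImplicit false

open Set Metric Filter Topology
open scoped RealInnerProductSpace

namespace Pool.Agent.Y240.FO.Ell

variable {E : Type*} [NormedAddCommGroup E] [InnerProductSpace ℝ E]

omit [InnerProductSpace ℝ E] in
theorem low {x y q : E} {l : ℝ} (hq : ‖q - x‖ + ‖q - y‖ = l) :
    (l - ‖x - y‖) / 2 ≤ ‖q - x‖ ∧ (l - ‖x - y‖) / 2 ≤ ‖q - y‖ := by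
  have h1 : ‖q - y‖ ≤ ‖q - x‖ + ‖x - y‖ := by
    have := norm_add_le (q - x) (x - y)
    rwa [sub_add_sub_cancel] at this
  have h2 : ‖q - x‖ ≤ ‖q - y‖ + ‖x - y‖ := by
    have := norm_add_le (q - y) (y - x)
    rwa [sub_add_sub_cancel, norm_sub_rev y x] at this
  constructor <;> linarith

theorem sq_sum {x y q : E} {l : ℝ} (hl : ‖x - y‖ < l) (hq : ‖q - x‖ + ‖q - y‖ = l) :
    ‖‖q - x‖⁻¹ • (q - x) + ‖q - y‖⁻¹ • (q - y)‖ ^ 2 * (‖q - x‖ * ‖q - y‖) =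
      l ^ 2 - ‖x - y‖ ^ 2 := by
  obtain ⟨h3, h4⟩ := low hq
  have hA : 0 < ‖q - x‖ := by linarith
  have hB : 0 < ‖q - y‖ := by linarith
  have h1 : ‖x - y‖ ^ 2 = ‖q - y‖ ^ 2 - 2 * ⟪q - y, q - x⟫ + ‖q - x‖ ^ 2 := by
    have : x - y = (q - y) - (q - x) := by abel
    rw [this, norm_sub_sq_real]
  rw [norm_add_sq_real, norm_smul, norm_smul, norm_inv, norm_inv, norm_norm, norm_norm,
    real_inner_smul_left, real_inner_smul_right, inv_mul_cancel₀ hA.ne', inv_mul_cancel₀ hB.ne',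
    h1, real_inner_comm (q - x) (q - y), ← hq]
  have h5 : (1 ^ 2 + 2 * (‖q - x‖⁻¹ * (‖q - y‖⁻¹ * ⟪q - x, q - y⟫)) + 1 ^ 2) *
      (‖q - x‖ * ‖q - y‖) = 2 * (‖q - x‖ * ‖q - y‖) + 2 * (‖q - x‖⁻¹ * ‖q - x‖) *
        (‖q - y‖⁻¹ * ‖q - y‖) * ⟪q - x, q - y⟫ := by ring
  rw [h5, inv_mul_cancel₀ hA.ne', inv_mul_cancel₀ hB.ne']
  ring

theorem low2 {x y q : E} {l : ℝ} (hl : ‖x - y‖ < l) (hq : ‖q - x‖ + ‖q - y‖ = l) :
    (l ^ 2 - ‖x - y‖ ^ 2) / l ^ 2 ≤ ‖‖q - x‖⁻¹ • (q - x) + ‖q - y‖⁻¹ • (q - y)‖ := by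
  have h1 := sq_sum hl hq
  have hc0 : 0 ≤ ‖x - y‖ := norm_nonneg _
  have hl0 : 0 < l := by linarith
  have hs0 : 0 ≤ ‖‖q - x‖⁻¹ • (q - x) + ‖q - y‖⁻¹ • (q - y)‖ := norm_nonneg _
  generalize ‖‖q - x‖⁻¹ • (q - x) + ‖q - y‖⁻¹ • (q - y)‖ = s at h1 hs0 ⊢
  have h2 : 4 * (‖q - x‖ * ‖q - y‖) ≤ l ^ 2 := by
    rw [← hq]
    nlinarith [sq_nonneg (‖q - x‖ - ‖q - y‖)]
  have hm1 : (l ^ 2 - ‖x - y‖ ^ 2) / l ^ 2 ≤ 1 := by
    rw [div_le_one (by positivity)]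
    nlinarith
  have hm0 : 0 ≤ (l ^ 2 - ‖x - y‖ ^ 2) / l ^ 2 := by
    apply div_nonneg _ (by positivity)
    nlinarith
  have hm2 : (l ^ 2 - ‖x - y‖ ^ 2) / l ^ 2 ≤ s ^ 2 / 4 := by
    rw [div_le_iff₀ (by positivity)]
    nlinarith [sq_nonneg s]
  generalize (l ^ 2 - ‖x - y‖ ^ 2) / l ^ 2 = m at hm0 hm1 hm2 ⊢
  by_contra hlt
  push Not at hlt
  nlinarith

omit [InnerProductSpace ℝ E] in
theorem pos2 {x y : E} {l : ℝ} (hl : ‖x - y‖ < l) : 0 < (l ^ 2 - ‖x - y‖ ^ 2) / l ^ 2 := by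
  have hc0 : 0 ≤ ‖x - y‖ := norm_nonneg _
  have hl0 : 0 < l := by linarith
  apply div_pos _ (by positivity)
  nlinarith

/-- lower bound by the tangent plane -/
theorem lowb {q x z : E} (hA : 0 < ‖q - x‖) :
    ‖q - x‖ + ⟪‖q - x‖⁻¹ • (q - x), z - q⟫ ≤ ‖z - x‖ := by
  have h1 : ⟪‖q - x‖⁻¹ • (q - x), z - x⟫ ≤ ‖z - x‖ := by
    have := real_inner_le_norm (‖q - x‖⁻¹ • (q - x)) (z - x)
    rwa [norm_smul, norm_inv, norm_norm, inv_mul_cancel₀ hA.ne', one_mul] at this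
  have h2 : ⟪‖q - x‖⁻¹ • (q - x), z - x⟫ = ‖q - x‖ + ⟪‖q - x‖⁻¹ • (q - x), z - q⟫ := by
    have : z - x = (z - q) + (q - x) := by abel
    rw [this, inner_add_right, real_inner_smul_left (q - x) (q - x), real_inner_self_eq_norm_sq]
    have h3 : ‖q - x‖⁻¹ * ‖q - x‖ ^ 2 = ‖q - x‖ := by
      rw [sq, ← mul_assoc, inv_mul_cancel₀ hA.ne', one_mul]
    rw [h3]
    ring
  linarith

/-- upper bound by a paraboloid -/
theorem uppb {q x z : E} (hA : 0 < ‖q - x‖) :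
    ‖z - x‖ ≤ ‖q - x‖ + ⟪‖q - x‖⁻¹ • (q - x), z - q⟫ + ‖z - q‖ ^ 2 / (2 * ‖q - x‖) := by
  have h1 : ‖z - x‖ ^ 2 = ‖z - q‖ ^ 2 + 2 * ⟪z - q, q - x⟫ + ‖q - x‖ ^ 2 := by
    have : z - x = (z - q) + (q - x) := by abel
    rw [this, norm_add_sq_real]
  have h2 : ‖q - x‖ + ⟪‖q - x‖⁻¹ • (q - x), z - q⟫ + ‖z - q‖ ^ 2 / (2 * ‖q - x‖) =
      (‖z - x‖ ^ 2 + ‖q - x‖ ^ 2) / (2 * ‖q - x‖) := by
    rw [h1, real_inner_smul_left, real_inner_comm (z - q) (q - x)]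
    field_simp
    ring
  rw [h2, le_div_iff₀ (by positivity)]
  nlinarith [sq_nonneg (‖z - x‖ - ‖q - x‖)]

theorem main (E : Type*) [NormedAddCommGroup E] [InnerProductSpace ℝ E] :
    Pool.Agent.Y294.FO.S_ELL E := by
  intro x y l hl
  have hc0 : 0 ≤ ‖x - y‖ := norm_nonneg _
  have hl0 : 0 < l := by linarith
  have hcont : Continuous (fun z : E => ‖z - x‖ + ‖z - y‖) := by fun_prop
  have hopen : IsOpen {z : E | ‖z - x‖ + ‖z - y‖ < l} := isOpen_lt hcont continuous_const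
  have hconv : Convex ℝ {z : E | ‖z - x‖ + ‖z - y‖ < l} := by
    have h := ((convexOn_univ_dist x).add (convexOn_univ_dist y)).convex_lt l
    simpa [dist_eq_norm] using h
  have hfr : ∀ q ∈ frontier {z : E | ‖z - x‖ + ‖z - y‖ < l}, ‖q - x‖ + ‖q - y‖ = l :=
    fun q hq => frontier_lt_subset_eq hcont continuous_const hq
  have hm := pos2 hl
  have hrp : 0 < (l ^ 2 - ‖x - y‖ ^ 2) / l ^ 2 * (l - ‖x - y‖) / 4 := by
    have : 0 < l - ‖x - y‖ := by linarith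
    positivity
  have hun : ∀ q : E, ‖q - x‖ + ‖q - y‖ = l → ‖Pool.Agent.Y294.FO.ellNormal E x y q‖ = 1 := by
    intro q hq
    have h1 := low2 hl hq
    unfold Pool.Agent.Y294.FO.ellNormal
    rw [norm_smul, norm_inv, norm_norm]
    apply inv_mul_cancel₀
    linarith
  have hab : ∀ q z : E, ‖q - x‖ + ‖q - y‖ = l →
      ⟪‖q - x‖⁻¹ • (q - x), z - q⟫ + ⟪‖q - y‖⁻¹ • (q - y), z - q⟫ =
        ‖‖q - x‖⁻¹ • (q - x) + ‖q - y‖⁻¹ • (q - y)‖ *
          ⟪Pool.Agent.Y294.FO.ellNormal E x y q, z - q⟫ := by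
    intro q z hq
    have h1 := low2 hl hq
    unfold Pool.Agent.Y294.FO.ellNormal
    rw [← inner_add_left]
    generalize ‖q - x‖⁻¹ • (q - x) + ‖q - y‖⁻¹ • (q - y) = v at h1 ⊢
    rw [real_inner_smul_left, ← mul_assoc, mul_inv_cancel₀ (by linarith), one_mul]
  refine ⟨(l ^ 2 - ‖x - y‖ ^ 2) / l ^ 2 * (l - ‖x - y‖) / 4, ⟨hopen, ⟨⟨x, ?_⟩, hconv.isPreconnected⟩,
    ?_, hrp, ?_, ?_, ?_⟩, hconv⟩
  · show ‖x - x‖ + ‖x - y‖ < l
    simpa using hl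
  · refine (Metric.isBounded_ball (x := x) (r := l)).subset ?_
    intro z hz
    have hz' : ‖z - x‖ + ‖z - y‖ < l := hz
    rw [mem_ball, dist_eq_norm]
    have := norm_nonneg (z - y)
    linarith
  · intro p hp
    exact hun p (hfr p hp)
  · intro q hq z hz
    have hq' := hfr q hq
    obtain ⟨h3, h4⟩ := low hq'
    have hA : 0 < ‖q - x‖ := by linarith
    have hB : 0 < ‖q - y‖ := by linarith
    have hn := hun q hq'
    have hs := low2 hl hq'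
    have hz1 := hab q z hq'
    have u1 := uppb (z := z) hA
    have u2 := uppb (z := z) hB
    generalize Pool.Agent.Y294.FO.ellNormal E x y q = n at *
    generalize (l ^ 2 - ‖x - y‖ ^ 2) / l ^ 2 = m at *
    generalize hsd : ‖‖q - x‖⁻¹ • (q - x) + ‖q - y‖⁻¹ • (q - y)‖ = s at *
    have hr : 0 < m * (l - ‖x - y‖) / 4 := hrp
    rw [mem_ball, dist_eq_norm] at hz
    have e1 : z - (q - (m * (l - ‖x - y‖) / 4) • n) = (z - q) + (m * (l - ‖x - y‖) / 4) • n := by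
      abel
    rw [e1] at hz
    have e2 : ‖(z - q) + (m * (l - ‖x - y‖) / 4) • n‖ ^ 2 < (m * (l - ‖x - y‖) / 4) ^ 2 := by
      have := norm_nonneg ((z - q) + (m * (l - ‖x - y‖) / 4) • n)
      nlinarith
    rw [norm_add_sq_real, norm_smul, real_inner_smul_right, hn, mul_one, Real.norm_eq_abs,
      sq_abs, real_inner_comm] at e2
    generalize hI : ⟪n, z - q⟫ = I at *
    have hw0 : 0 ≤ ‖z - q‖ := norm_nonneg _
    show ‖z - x‖ + ‖z - y‖ < l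
    generalize ‖z - q‖ = w at *
    have hd : 0 < l - ‖x - y‖ := by linarith
    -- `s I < - w² s / (2 r)`
    have k1 : s * I < - (2 * w ^ 2 / (l - ‖x - y‖)) := by
      rw [lt_neg, div_lt_iff₀ hd]
      have hw2 : 0 ≤ w ^ 2 := sq_nonneg _
      have hI0 : I < 0 := by
        by_contra h
        push Not at h
        have := mul_nonneg hr.le h
        linarith
      have h6 : 0 ≤ (s - m) * (-I) * (l - ‖x - y‖) :=
        mul_nonneg (mul_nonneg (by linarith) (by linarith)) hd.le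
      nlinarith
    have k2 : w ^ 2 / (2 * ‖q - x‖) ≤ w ^ 2 / (l - ‖x - y‖) :=
      div_le_div_of_nonneg_left (sq_nonneg _) hd (by linarith)
    have k3 : w ^ 2 / (2 * ‖q - y‖) ≤ w ^ 2 / (l - ‖x - y‖) :=
      div_le_div_of_nonneg_left (sq_nonneg _) hd (by linarith)
    have k4 : 2 * w ^ 2 / (l - ‖x - y‖) = w ^ 2 / (l - ‖x - y‖) + w ^ 2 / (l - ‖x - y‖) := by
      ring
    linarith
  · intro q hq
    rw [Set.disjoint_left]
    intro z hz hzΩ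
    have hq' := hfr q hq
    obtain ⟨h3, h4⟩ := low hq'
    have hA : 0 < ‖q - x‖ := by linarith
    have hB : 0 < ‖q - y‖ := by linarith
    have hn := hun q hq'
    have hs := low2 hl hq'
    have hz1 := hab q z hq'
    have u1 := lowb (z := z) hA
    have u2 := lowb (z := z) hB
    have hzΩ' : ‖z - x‖ + ‖z - y‖ < l := hzΩ
    generalize Pool.Agent.Y294.FO.ellNormal E x y q = n at *
    generalize (l ^ 2 - ‖x - y‖ ^ 2) / l ^ 2 = m at *
    generalize hsd : ‖‖q - x‖⁻¹ • (q - x) + ‖q - y‖⁻¹ • (q - y)‖ = s at *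
    generalize hrr : m * (l - ‖x - y‖) / 4 = r at *
    rw [mem_ball, dist_eq_norm] at hz
    have e1 : z - (q + r • n) = (z - q) - r • n := by
      abel
    rw [e1] at hz
    have e2 : ‖(z - q) - r • n‖ ^ 2 < r ^ 2 := by
      have := norm_nonneg ((z - q) - r • n)
      nlinarith
    rw [norm_sub_sq_real, norm_smul, real_inner_smul_right, hn, mul_one, Real.norm_eq_abs,
      sq_abs, real_inner_comm] at e2
    have hI : 0 < ⟪n, z - q⟫ := by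
      have hw0 : 0 ≤ ‖z - q‖ ^ 2 := sq_nonneg _
      have h5 : 0 < r * ⟪n, z - q⟫ := by linarith
      by_contra h
      push Not at h
      have := mul_nonpos_of_nonneg_of_nonpos hrp.le h
      linarith
    have h6 : 0 ≤ s * ⟪n, z - q⟫ := mul_nonneg (by linarith) hI.le
    linarith

end Pool.Agent.Y240.FO.Ell
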