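import Mathlib
import Pool.Agent.Y294.FO.Stm
import Pool.Agent.Helper514.IoD

/-!
# Continuous injective self-maps of the unit sphere are surjective (job FO-SURJ for helper294)
-/

set_option autoImplicit false

open Set Metric Filter Topology

namespace Pool.Agent.Y240.FO.Surj

theorem main (E : Type*) [NormedAddCommGroup E] [InnerProductSpace ℝ E] [FiniteDimensional ℝ E] :
    Pool.Agent.Y294.FO.S_SURJ E := by
  intro _ w hw hm hi u hu
  have hsph : ∀ z : E, z ≠ 0 → ‖z‖⁻¹ • z ∈ sphere (0 : E) 1 := by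
    intro z hz
    have : ‖z‖ ≠ 0 := norm_ne_zero_iff.2 hz
    rw [mem_sphere_zero_iff_norm, norm_smul, norm_inv, norm_norm, inv_mul_cancel₀ this]
  have hnorm : ∀ z : E, ‖‖z‖ • w (‖z‖⁻¹ • z)‖ = ‖z‖ := by
    intro z
    rcases eq_or_ne z 0 with rfl | hz
    · simp
    · have h1 := hm (hsph z hz)
      rw [mem_sphere_zero_iff_norm] at h1
      rw [norm_smul, h1, norm_norm, mul_one]
  have hcont : Continuous (fun z : E => ‖z‖ • w (‖z‖⁻¹ • z)) := by
    rw [continuous_iff_continuousAt]
    intro z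
    rcases eq_or_ne z 0 with rfl | hz
    · have h0 : ‖(0 : E)‖ • w (‖(0 : E)‖⁻¹ • (0 : E)) = 0 := by simp
      rw [ContinuousAt, h0]
      apply tendsto_zero_iff_norm_tendsto_zero.2
      simp only [hnorm]
      have := (continuous_norm (E := E)).tendsto 0
      rwa [norm_zero] at this
    · apply ContinuousAt.smul continuous_norm.continuousAt
      have h1 : ContinuousOn (fun z : E => ‖z‖⁻¹ • z) {z | z ≠ 0} := by
        apply ContinuousOn.smul _ continuousOn_id
        apply ContinuousOn.inv₀ continuous_norm.continuousOn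
        intro y hy
        exact norm_ne_zero_iff.2 hy
      have h2 : ContinuousOn (fun z : E => w (‖z‖⁻¹ • z)) {z | z ≠ 0} :=
        hw.comp h1 (fun y hy => hsph y hy)
      exact h2.continuousAt (isOpen_ne.mem_nhds hz)
  have hinj : Function.Injective (fun z : E => ‖z‖ • w (‖z‖⁻¹ • z)) := by
    intro z z' h
    simp only at h
    have hn : ‖z‖ = ‖z'‖ := by rw [← hnorm z, ← hnorm z', h]
    rcases eq_or_ne z 0 with rfl | hz
    · rw [norm_zero] at hn
      exact (norm_eq_zero.1 hn.symm).symm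
    · have hz0 : ‖z‖ ≠ 0 := norm_ne_zero_iff.2 hz
      have hz' : z' ≠ 0 := by
        rintro rfl
        rw [norm_zero] at hn
        exact hz0 hn
      rw [← hn] at h
      have h2 := smul_right_injective E hz0 h
      have h3 := hi (hsph z hz) (by rw [hn]; exact hsph z' hz') h2
      exact smul_right_injective E (inv_ne_zero hz0) h3
  have hopen : IsOpen (range (fun z : E => ‖z‖ • w (‖z‖⁻¹ • z))) := by
    rw [isOpen_iff_mem_nhds]
    rintro _ ⟨x0, rfl⟩
    have := Pool.Agent.Helper514.IoD.image_mem_nhds (fun z : E => ‖z‖ • w (‖z‖⁻¹ • z)) x0 1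
      one_pos hcont.continuousOn hinj.injOn
    exact mem_of_superset this (image_subset_range _ _)
  have hclosed : IsClosed (range (fun z : E => ‖z‖ • w (‖z‖⁻¹ • z))) := by
    have h1 : Tendsto (fun z : E => ‖z‖ • w (‖z‖⁻¹ • z)) (cocompact E) (cocompact E) := by
      rw [← cobounded_eq_cocompact, ← tendsto_norm_atTop_iff_cobounded]
      simp only [hnorm]
      exact tendsto_norm_cobounded_atTop
    exact ((isProperMap_iff_tendsto_cocompact).2 ⟨hcont, h1⟩).isClosedMap.isClosed_range
  have huniv : range (fun z : E => ‖z‖ • w (‖z‖⁻¹ • z)) = univ :=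
    IsClopen.eq_univ ⟨hclosed, hopen⟩ ⟨_, ⟨0, rfl⟩⟩
  obtain ⟨z, hz⟩ : u ∈ range (fun z : E => ‖z‖ • w (‖z‖⁻¹ • z)) := by
    rw [huniv]; exact mem_univ u
  simp only at hz
  have hz1 : ‖z‖ = 1 := by rw [← hnorm z, hz, hu]
  refine ⟨z, hz1, ?_⟩
  rw [hz1, inv_one, one_smul, one_smul] at hz
  exact hz

end Pool.Agent.Y240.FO.Surj
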